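import Mathlib

set_option autoImplicit false
open Set Filter Topology

namespace Pool.Agent.Results.MP_fdfd6d_gt.BeadChains

/-- The order (Menger-Urysohn) of the point `p` is at most `n`: `p` has arbitrarily small open
neighbourhoods whose boundaries contain at most `n` points. -/
def OrderLE {X : Type} [TopologicalSpace X] (p : X) (n : ℕ) : Prop :=
  ∀ U ∈ 𝓝 p, ∃ V : Set X, IsOpen V ∧ p ∈ V ∧ V ⊆ U ∧ (frontier V).encard ≤ n

/-- A nondegenerate continuum all of whose points have finite order. In particular every point has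
arbitrarily small open neighbourhoods with finite boundary, so it is a regular curve. -/
def RegularCurveOfFiniteOrder (X : Type) [MetricSpace X] : Prop :=
  CompactSpace X ∧ ConnectedSpace X ∧ Nontrivial X ∧ ∀ p : X, ∃ n : ℕ, OrderLE p n

/-- Every fibre is (nonempty and) connected. -/
def MonotoneMap {X Y : Type} [TopologicalSpace X] [TopologicalSpace Y] (f : X → Y) : Prop :=
  ∀ y, IsConnected (f ⁻¹' {y})

/-- Every fibre has diameter less than `ε`. -/
def EpsMap {X Y : Type} [MetricSpace X] (ε : ℝ) (f : X → Y) : Prop :=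
  ∀ y, Metric.diam (f ⁻¹' {y}) < ε

/-- `r` is a continuous surjection which is uniformly approximated, for every `ε > 0`, within `ε` by
a monotone continuous surjective `ε`-map. -/
def MonotonelyRefinable {X Y : Type} [MetricSpace X] [MetricSpace Y] (r : X → Y) : Prop :=
  Continuous r ∧ Function.Surjective r ∧ ∀ ε : ℝ, 0 < ε → ∃ f : X → Y,
    Continuous f ∧ Function.Surjective f ∧ MonotoneMap f ∧ EpsMap ε f ∧ ∀ x, dist (f x) (r x) < ε

/-- The chain of beads over `J` with half-width function `d`. -/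
def Beads (d : ℝ → ℝ) (J : Set ℝ) : Set (ℝ × ℝ) := {p | p.1 ∈ J ∧ |p.2| = d p.1}

theorem beads_eq (d : ℝ → ℝ) (hd0 : ∀ t, 0 ≤ d t) (J : Set ℝ) :
    Beads d J = (fun t => (t, d t)) '' J ∪ (fun t => (t, -d t)) '' J := by
  ext ⟨t, y⟩
  constructor
  · rintro ⟨ht, hy⟩
    have hy' : |y| = d t := hy
    rcases abs_cases y with ⟨h1, _⟩ | ⟨h1, _⟩
    · left; exact ⟨t, ht, Prod.ext rfl (by show d t = y; rw [← hy', h1])⟩
    · right; exact ⟨t, ht, Prod.ext rfl (by show -d t = y; rw [← hy', h1]; simp)⟩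
  · rintro (⟨s, hs, h⟩ | ⟨s, hs, h⟩)
    · have h1 : s = t := congrArg Prod.fst h
      have h2 : d s = y := congrArg Prod.snd h
      subst h1
      exact ⟨hs, by show |y| = d s; rw [← h2, abs_of_nonneg (hd0 s)]⟩
    · have h1 : s = t := congrArg Prod.fst h
      have h2 : -d s = y := congrArg Prod.snd h
      subst h1
      exact ⟨hs, by show |y| = d s; rw [← h2, abs_neg, abs_of_nonneg (hd0 s)]⟩

theorem beads_preconnected (d : ℝ → ℝ) (hd : Continuous d) (hd0 : ∀ t, 0 ≤ d t) (J : Set ℝ)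
    (hJ : IsPreconnected J) (u : ℝ) (hu : u ∈ J) (hdu : d u = 0) : IsPreconnected (Beads d J) := by
  rw [beads_eq d hd0 J]
  have c1 : Continuous (fun t => (t, d t)) := by fun_prop
  have c2 : Continuous (fun t => (t, -d t)) := by fun_prop
  exact IsPreconnected.union (u, 0) ⟨u, hu, Prod.ext rfl hdu⟩
    ⟨u, hu, Prod.ext rfl (by show -d u = 0; rw [hdu]; simp)⟩
    (hJ.image _ c1.continuousOn) (hJ.image _ c2.continuousOn)

theorem beads_compact (d : ℝ → ℝ) (hd : Continuous d) (hd0 : ∀ t, 0 ≤ d t) (a b : ℝ) :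
    IsCompact (Beads d (Icc a b)) := by
  rw [beads_eq d hd0]
  have c1 : Continuous (fun t => (t, d t)) := by fun_prop
  have c2 : Continuous (fun t => (t, -d t)) := by fun_prop
  exact (isCompact_Icc.image c1).union (isCompact_Icc.image c2)

/-- every point of a chain of beads has order at most four -/
theorem beads_order (d : ℝ → ℝ) (hd : Continuous d) (J : Set ℝ)
    (p : Beads d J) : OrderLE p 4 := by
  intro U hU
  obtain ⟨ε, hε, hball⟩ := Metric.mem_nhds_iff.1 hU
  set t0 := p.1.1 with ht0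
  set y0 := p.1.2 with hy0
  have hp : |y0| = d t0 := p.2.2
  -- the four candidate boundary points
  have hfin : ∀ ρ : ℝ, ({q : Beads d J | |q.1.1 - t0| = ρ} : Set (Beads d J)).encard ≤ 4 := by
    intro ρ
    have hsub : Subtype.val '' ({q : Beads d J | |q.1.1 - t0| = ρ} : Set (Beads d J)) ⊆
        ({(t0 + ρ, d (t0 + ρ)), (t0 + ρ, -d (t0 + ρ)), (t0 - ρ, d (t0 - ρ)),
          (t0 - ρ, -d (t0 - ρ))} : Finset (ℝ × ℝ)) := by
      rintro _ ⟨q, hq, rfl⟩
      have hq1 : |q.1.1 - t0| = ρ := hq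
      have hq2 : |q.1.2| = d q.1.1 := q.2.2
      have h1 : q.1.1 = t0 + ρ ∨ q.1.1 = t0 - ρ := by
        rcases abs_cases (q.1.1 - t0) with ⟨h, _⟩ | ⟨h, _⟩
        · left; linarith
        · right; linarith
      have h2 : q.1.2 = d q.1.1 ∨ q.1.2 = - d q.1.1 := by
        rcases abs_cases q.1.2 with ⟨h, _⟩ | ⟨h, _⟩
        · left; linarith
        · right; linarith
      have hq' : q.1 = (q.1.1, q.1.2) := rfl
      simp only [Finset.coe_insert, Finset.coe_singleton, mem_insert_iff, mem_singleton_iff]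
      rcases h1 with h1 | h1 <;> rcases h2 with h2 | h2
      · left; rw [hq', h2, h1]
      · right; left; rw [hq', h2, h1]
      · right; right; left; rw [hq', h2, h1]
      · right; right; right; rw [hq', h2, h1]
    have h3 := Set.encard_le_encard hsub
    rw [Subtype.val_injective.encard_image] at h3
    refine h3.trans ?_
    rw [Set.encard_coe_eq_coe_finsetCard]
    have : ({(t0 + ρ, d (t0 + ρ)), (t0 + ρ, -d (t0 + ρ)), (t0 - ρ, d (t0 - ρ)),
          (t0 - ρ, -d (t0 - ρ))} : Finset (ℝ × ℝ)).card ≤ 4 := Finset.card_le_four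
    exact_mod_cast this
  have hcont1 : Continuous (fun q : Beads d J => q.1.1) := continuous_fst.comp continuous_subtype_val
  have hcont2 : Continuous (fun q : Beads d J => q.1.2) := continuous_snd.comp continuous_subtype_val
  by_cases hy : y0 = 0
  · -- a zero of d
    have hd0' : d t0 = 0 := by rw [← hp, hy]; simp
    obtain ⟨ρ0, hρ0, hρ⟩ := Metric.continuousAt_iff.1 (hd.continuousAt (x := t0)) ε hε
    set ρ := min ρ0 ε with hρdef
    have hρpos : 0 < ρ := lt_min hρ0 hε
    refine ⟨{q | |q.1.1 - t0| < ρ}, ?_, ?_, ?_, ?_⟩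
    · exact isOpen_lt (hcont1.sub continuous_const).abs continuous_const
    · show |p.1.1 - t0| < ρ
      simp [ht0, hρpos]
    · intro q hq
      have hq1 : |q.1.1 - t0| < ρ := hq
      apply hball
      rw [Metric.mem_ball, Subtype.dist_eq, Prod.dist_eq]
      apply max_lt
      · rw [Real.dist_eq]; exact lt_of_lt_of_le hq1 (min_le_right _ _)
      · rw [Real.dist_eq, ← hy0, hy, sub_zero, q.2.2]
        have := hρ (x := q.1.1) (by rw [Real.dist_eq]; exact lt_of_lt_of_le hq1 (min_le_left _ _))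
        rw [Real.dist_eq, hd0', sub_zero] at this
        exact (le_abs_self _).trans_lt this
    · refine le_trans (Set.encard_le_encard ?_) (hfin ρ)
      exact frontier_lt_subset_eq (hcont1.sub continuous_const).abs continuous_const
  · -- a point with nonzero second coordinate
    have hdpos : 0 < d t0 := by rw [← hp]; exact abs_pos.2 hy
    obtain ⟨ρ0, hρ0, hρ⟩ := Metric.continuousAt_iff.1 (hd.continuousAt (x := t0)) (min ε (d t0))
      (lt_min hε hdpos)
    set ρ := min (ρ0 / 2) ε with hρdef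
    have hρpos : 0 < ρ := lt_min (by positivity) hε
    have hnear : ∀ s, |s - t0| ≤ ρ → |d s - d t0| < min ε (d t0) := by
      intro s hs
      have h1 : ρ ≤ ρ0 / 2 := min_le_left _ _
      have := hρ (x := s) (by rw [Real.dist_eq]; linarith)
      rwa [Real.dist_eq] at this
    refine ⟨{q | |q.1.1 - t0| < ρ} ∩ {q | 0 < q.1.2 * y0}, ?_, ?_, ?_, ?_⟩
    · apply IsOpen.inter
      · exact isOpen_lt (hcont1.sub continuous_const).abs continuous_const
      · exact isOpen_lt continuous_const (hcont2.mul continuous_const)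
    · refine ⟨?_, ?_⟩
      · show |p.1.1 - t0| < ρ
        simp [ht0, hρpos]
      · show 0 < y0 * y0
        exact mul_self_pos.2 hy
    · rintro q ⟨hq, hqs⟩
      have hq1 : |q.1.1 - t0| < ρ := hq
      have hq2 : 0 < q.1.2 * y0 := hqs
      apply hball
      rw [Metric.mem_ball, Subtype.dist_eq, Prod.dist_eq]
      apply max_lt
      · rw [Real.dist_eq]; exact lt_of_lt_of_le hq1 (min_le_right _ _)
      · rw [Real.dist_eq]
        have h3 : |(|q.1.2| - |y0|)| < ε := by
          rw [q.2.2, hp]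
          exact lt_of_lt_of_le (hnear _ hq1.le) (min_le_left _ _)
        have h4 : |q.1.2 - y0| = |(|q.1.2| - |y0|)| := by
          rcases lt_or_gt_of_ne hy with h | h
          · have h5 : q.1.2 < 0 := by
              by_contra hc
              push Not at hc
              have := mul_nonpos_of_nonneg_of_nonpos hc h.le
              linarith
            rw [abs_of_neg h5, abs_of_neg h, ← abs_neg]
            congr 1; ring
          · have h5 : 0 < q.1.2 := by
              by_contra hc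
              push Not at hc
              have := mul_nonpos_of_nonpos_of_nonneg hc h.le
              linarith
            rw [abs_of_pos h5, abs_of_pos h]
        rw [h4]; exact h3
    · refine le_trans (Set.encard_le_encard ?_) (hfin ρ)
      rintro q hq
      have hcl : q ∈ closure ({q : Beads d J | |q.1.1 - t0| < ρ} ∩ {q | 0 < q.1.2 * y0}) := hq.1
      have hni : q ∉ ({q : Beads d J | |q.1.1 - t0| < ρ} ∩ {q | 0 < q.1.2 * y0}) := by
        intro hmem
        apply hq.2
        apply mem_interior_iff_mem_nhds.2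
        apply IsOpen.mem_nhds _ hmem
        apply IsOpen.inter
        · exact isOpen_lt (hcont1.sub continuous_const).abs continuous_const
        · exact isOpen_lt continuous_const (hcont2.mul continuous_const)
      have hclosed : IsClosed ({q : Beads d J | |q.1.1 - t0| ≤ ρ} ∩ {q | 0 ≤ q.1.2 * y0}) := by
        apply IsClosed.inter
        · exact isClosed_le (hcont1.sub continuous_const).abs continuous_const
        · exact isClosed_le continuous_const (hcont2.mul continuous_const)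
      have hsubc : ({q : Beads d J | |q.1.1 - t0| < ρ} ∩ {q | 0 < q.1.2 * y0}) ⊆
          ({q : Beads d J | |q.1.1 - t0| ≤ ρ} ∩ {q | 0 ≤ q.1.2 * y0}) := fun w hw =>
        ⟨le_of_lt (show |w.1.1 - t0| < ρ from hw.1), le_of_lt (show 0 < w.1.2 * y0 from hw.2)⟩
      have hq' := closure_minimal hsubc hclosed hcl
      have h1 : |q.1.1 - t0| ≤ ρ := hq'.1
      have h2 : 0 ≤ q.1.2 * y0 := hq'.2
      have h3 : q.1.2 ≠ 0 := by
        intro h0
        have h4 : d q.1.1 = 0 := by rw [← q.2.2, h0]; simp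
        have h5 := lt_of_lt_of_le (hnear _ h1) (min_le_right _ _)
        rw [h4, zero_sub, abs_neg, abs_of_pos hdpos] at h5
        exact lt_irrefl _ h5
      have h4 : 0 < q.1.2 * y0 := lt_of_le_of_ne h2 (Ne.symm (mul_ne_zero h3 hy))
      show |q.1.1 - t0| = ρ
      by_contra hne
      exact hni ⟨lt_of_le_of_ne h1 hne, h4⟩

/-- The half-width function with zeros `0` and `2 ^ n`, `n` an integer. -/
noncomputable def w (t : ℝ) : ℝ := |t * Real.sin (Real.pi * (Real.log t / Real.log 2))|

theorem w_nonneg (t : ℝ) : 0 ≤ w t := abs_nonneg _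

theorem w_le (t : ℝ) : w t ≤ |t| := by
  unfold w
  rw [abs_mul]
  have := Real.abs_sin_le_one (Real.pi * (Real.log t / Real.log 2))
  nlinarith [abs_nonneg t]

theorem w_zero : w 0 = 0 := by simp [w]

theorem w_one : w 1 = 0 := by simp [w]

theorem w_cont : Continuous w := by
  rw [continuous_iff_continuousAt]
  intro t
  by_cases ht : t = 0
  · subst ht
    rw [ContinuousAt, w_zero]
    have hlim : Tendsto (fun t : ℝ => |t|) (𝓝 0) (𝓝 0) := by
      have := (continuous_abs (G := ℝ)).tendsto 0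
      simpa using this
    exact squeeze_zero w_nonneg w_le hlim
  · unfold w
    apply ContinuousAt.abs
    apply continuousAt_id.mul
    apply Real.continuous_sin.continuousAt.comp
    exact continuousAt_const.mul ((Real.continuousAt_log ht).div_const _)

theorem w_scale (k : ℕ) (t : ℝ) (ht : 0 ≤ t) : w ((1 / 2) ^ k * t) = (1 / 2) ^ k * w t := by
  rcases eq_or_lt_of_le ht with h | h
  · rw [← h, mul_zero, w_zero, mul_zero]
  · unfold w
    have h2 : (0 : ℝ) < (1 / 2) ^ k := by positivity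
    have hl2 : Real.log 2 ≠ 0 := (Real.log_pos (by norm_num)).ne'
    have h3 : Real.log ((1 / 2 : ℝ) ^ k * t) / Real.log 2 = Real.log t / Real.log 2 - k := by
      rw [Real.log_mul h2.ne' h.ne', Real.log_pow, one_div, Real.log_inv]
      field_simp
      ring
    have h4 : Real.sin (Real.pi * (Real.log ((1 / 2 : ℝ) ^ k * t) / Real.log 2)) =
        (-1) ^ k * Real.sin (Real.pi * (Real.log t / Real.log 2)) := by
      rw [h3, mul_sub, mul_comm Real.pi (k : ℝ), Real.sin_sub_nat_mul_pi]
    rw [h4]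
    have h5 : (1 / 2 : ℝ) ^ k * t * ((-1) ^ k * Real.sin (Real.pi * (Real.log t / Real.log 2))) =
        (1 / 2) ^ k * ((-1) ^ k * (t * Real.sin (Real.pi * (Real.log t / Real.log 2)))) := by ring
    rw [h5, abs_mul, abs_of_pos h2, abs_mul ((-1 : ℝ) ^ k), abs_neg_one_pow, one_mul]

theorem w_zeros (t : ℝ) (ht : 0 < t) (ht1 : t < 1) (hw : w t = 0) :
    ∃ m : ℕ, t = (1 / 2) ^ (m + 1) := by
  unfold w at hw
  have h1 := abs_eq_zero.1 hw
  have h2 : Real.sin (Real.pi * (Real.log t / Real.log 2)) = 0 := by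
    rcases mul_eq_zero.1 h1 with h | h
    · exact absurd h ht.ne'
    · exact h
  obtain ⟨n, hn⟩ := Real.sin_eq_zero_iff.1 h2
  have hl2 : 0 < Real.log 2 := Real.log_pos (by norm_num)
  have h3 : (n : ℝ) = Real.log t / Real.log 2 := by
    have : Real.pi * (n : ℝ) = Real.pi * (Real.log t / Real.log 2) := by rw [← hn]; ring
    exact mul_left_cancel₀ Real.pi_pos.ne' this
  have h4 : Real.log t = n * Real.log 2 := by rw [h3]; field_simp
  have hneg : (n : ℝ) < 0 := by
    have h5 := Real.log_neg ht ht1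
    rw [h4] at h5
    by_contra hc
    push Not at hc
    have := mul_nonneg hc hl2.le
    linarith
  have hn0 : n < 0 := by exact_mod_cast hneg
  obtain ⟨m, hm⟩ : ∃ m : ℕ, n = -((m : ℤ) + 1) := by
    obtain ⟨m, hm⟩ := Int.eq_ofNat_of_zero_le (show 0 ≤ -n - 1 by omega)
    exact ⟨m, by omega⟩
  refine ⟨m, ?_⟩
  apply Real.log_injOn_pos (mem_Ioi.2 ht) (mem_Ioi.2 (by positivity))
  rw [h4, Real.log_pow, one_div, Real.log_inv, hm]
  push_cast
  ring

theorem w_half_pow (k : ℕ) : w ((1 / 2) ^ k) = 0 := by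
  have := w_scale k 1 zero_le_one
  rw [mul_one, w_one, mul_zero] at this
  exact this

/-- the half-width function of the longer chain -/
noncomputable def w2 (t : ℝ) : ℝ := if t ≤ 0 then w (t + 1) else w t

theorem w2_nonneg (t : ℝ) : 0 ≤ w2 t := by
  unfold w2; split_ifs <;> exact w_nonneg _

theorem w2_cont : Continuous w2 := by
  unfold w2
  apply Continuous.if_le
  · exact w_cont.comp (by fun_prop)
  · exact w_cont
  · exact continuous_id
  · exact continuous_const
  · intro x hx
    rw [hx]; simp [w_zero, w_one]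

/-- the long chain: two sequences of beads one after the other -/
abbrev XX : Type := Beads w2 (Icc (-1) 1)

/-- the short chain: one sequence of beads converging to a point -/
abbrev YY : Type := Beads w (Icc 0 1)

theorem XX_pos (p : XX) (hp : 0 ≤ p.1.1) : |p.1.2| = w p.1.1 := by
  have h := p.2.2
  rcases eq_or_lt_of_le hp with h0 | h0
  · rw [h, ← h0]; simp [w2, w_zero, w_one]
  · rw [h]; simp [w2, not_le.2 h0]

theorem XX_neg (p : XX) (hp : p.1.1 ≤ 0) : |p.1.2| = w (p.1.1 + 1) := by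
  have h := p.2.2
  rw [h]; simp [w2, hp]

/-- the limit map: the second sequence of beads is collapsed -/
noncomputable def r0 (p : XX) : ℝ × ℝ := if 0 ≤ p.1.1 then p.1 else (0, 0)

theorem r0_mem (p : XX) : r0 p ∈ Beads w (Icc 0 1) := by
  unfold r0
  split_ifs with h
  · exact ⟨⟨h, p.2.1.2⟩, XX_pos p h⟩
  · exact ⟨⟨le_rfl, zero_le_one⟩, by simp [w_zero]⟩

theorem XX_at_zero (p : XX) (hp : p.1.1 = 0) : p.1 = (0, 0) := by
  have h := XX_pos p hp.ge
  rw [hp, w_zero, abs_eq_zero] at h
  exact Prod.ext hp h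

noncomputable def r (p : XX) : YY := ⟨r0 p, r0_mem p⟩

theorem r_cont : Continuous r := by
  apply Continuous.subtype_mk
  unfold r0
  apply Continuous.if_le
  · exact continuous_subtype_val
  · exact continuous_const
  · exact continuous_const
  · exact continuous_fst.comp continuous_subtype_val
  · intro x hx
    exact XX_at_zero x hx.symm

theorem r_surj : Function.Surjective r := by
  intro q
  have hq0 : 0 ≤ q.1.1 := q.2.1.1
  have hmem : q.1 ∈ Beads w2 (Icc (-1) 1) := by
    refine ⟨⟨by linarith, q.2.1.2⟩, ?_⟩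
    rw [q.2.2]
    rcases eq_or_lt_of_le hq0 with h0 | h0
    · rw [← h0]; simp [w2, w_zero, w_one]
    · simp [w2, not_le.2 h0]
  refine ⟨⟨q.1, hmem⟩, ?_⟩
  apply Subtype.ext
  show r0 ⟨q.1, hmem⟩ = q.1
  unfold r0
  simp [hq0]

/-- the approximating monotone maps -/
noncomputable def f0 (k : ℕ) (p : XX) : ℝ × ℝ :=
  if (1 / 2) ^ k ≤ p.1.1 then p.1 else
    if 0 ≤ p.1.1 then ((1 / 2) ^ k, 0) else ((1 / 2) ^ k * (p.1.1 + 1), (1 / 2) ^ k * p.1.2)

theorem half_pow_pos (k : ℕ) : (0 : ℝ) < (1 / 2) ^ k := by positivity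

theorem half_pow_le (k : ℕ) : ((1 : ℝ) / 2) ^ k ≤ 1 := pow_le_one₀ (by norm_num) (by norm_num)

theorem f0_mem (k : ℕ) (p : XX) : f0 k p ∈ Beads w (Icc 0 1) := by
  have hk := half_pow_pos k
  have hk1 := half_pow_le k
  unfold f0
  split_ifs with h1 h2
  · exact ⟨⟨hk.le.trans h1, p.2.1.2⟩, XX_pos p (hk.le.trans h1)⟩
  · refine ⟨⟨hk.le, hk1⟩, ?_⟩
    show |(0 : ℝ)| = w ((1 / 2) ^ k)
    rw [w_half_pow, abs_zero]
  · push Not at h2
    have hp1 : 0 ≤ p.1.1 + 1 := by linarith [p.2.1.1]
    refine ⟨⟨mul_nonneg hk.le hp1, ?_⟩, ?_⟩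
    · show (1 / 2) ^ k * (p.1.1 + 1) ≤ 1
      calc (1 / 2 : ℝ) ^ k * (p.1.1 + 1) ≤ 1 * 1 := by
            apply mul_le_mul hk1 (by linarith) hp1 zero_le_one
        _ = 1 := by ring
    · show |(1 / 2 : ℝ) ^ k * p.1.2| = w ((1 / 2) ^ k * (p.1.1 + 1))
      rw [w_scale k _ hp1, abs_mul, abs_of_pos hk, XX_neg p h2.le]

noncomputable def f (k : ℕ) (p : XX) : YY := ⟨f0 k p, f0_mem k p⟩

theorem f_cont (k : ℕ) : Continuous (f k) := by
  have hc1 : Continuous (fun p : XX => p.1.1) := continuous_fst.comp continuous_subtype_val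
  have hc2 : Continuous (fun p : XX => p.1.2) := continuous_snd.comp continuous_subtype_val
  apply Continuous.subtype_mk
  unfold f0
  apply Continuous.if_le
  · exact continuous_subtype_val
  · apply Continuous.if_le
    · exact continuous_const
    · exact (continuous_const.mul (hc1.add continuous_const)).prodMk (continuous_const.mul hc2)
    · exact continuous_const
    · exact hc1
    · intro x hx
      have h := XX_at_zero x hx.symm
      rw [h]; simp
  · exact continuous_const
  · exact hc1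
  · intro x hx
    have hk := half_pow_pos k
    have h0 : 0 ≤ x.1.1 := by rw [← hx]; exact hk.le
    rw [if_pos h0]
    have h := XX_pos x h0
    rw [← hx, w_half_pow, abs_eq_zero] at h
    exact Prod.ext hx.symm h

theorem f_surj (k : ℕ) : Function.Surjective (f k) := by
  intro q
  have hk := half_pow_pos k
  have hk1 := half_pow_le k
  have hq0 : 0 ≤ q.1.1 := q.2.1.1
  by_cases hle : (1 / 2) ^ k ≤ q.1.1
  · have hmem : q.1 ∈ Beads w2 (Icc (-1) 1) := by
      refine ⟨⟨by linarith, q.2.1.2⟩, ?_⟩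
      rw [q.2.2]
      simp [w2, not_le.2 (lt_of_lt_of_le hk hle)]
    refine ⟨⟨q.1, hmem⟩, ?_⟩
    apply Subtype.ext
    show f0 k ⟨q.1, hmem⟩ = q.1
    unfold f0
    rw [if_pos hle]
  · push Not at hle
    have hs0 : 0 ≤ q.1.1 / (1 / 2) ^ k := div_nonneg hq0 hk.le
    have hs1 : q.1.1 / (1 / 2) ^ k < 1 := (div_lt_one hk).2 hle
    have hmem : ((q.1.1 / (1 / 2) ^ k - 1, q.1.2 / (1 / 2) ^ k) : ℝ × ℝ) ∈
        Beads w2 (Icc (-1) 1) := by
      refine ⟨⟨by show -1 ≤ q.1.1 / (1 / 2) ^ k - 1; linarith,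
        by show q.1.1 / (1 / 2) ^ k - 1 ≤ 1; linarith⟩, ?_⟩
      show |q.1.2 / (1 / 2) ^ k| = w2 (q.1.1 / (1 / 2) ^ k - 1)
      have h1 : q.1.1 / (1 / 2) ^ k - 1 ≤ 0 := by linarith
      unfold w2
      rw [if_pos h1, sub_add_cancel, abs_div, abs_of_pos hk, q.2.2]
      have h2 := w_scale k _ hs0
      rw [mul_div_cancel₀ _ hk.ne'] at h2
      rw [h2, mul_div_cancel_left₀ _ hk.ne']
    refine ⟨⟨_, hmem⟩, ?_⟩
    apply Subtype.ext
    show f0 k ⟨_, hmem⟩ = q.1
    unfold f0
    have h1 : ¬ ((1 / 2) ^ k ≤ q.1.1 / (1 / 2) ^ k - 1) := by linarith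
    have h2 : ¬ (0 ≤ q.1.1 / (1 / 2) ^ k - 1) := by linarith
    rw [if_neg h1, if_neg h2]
    apply Prod.ext
    · show (1 / 2) ^ k * (q.1.1 / (1 / 2) ^ k - 1 + 1) = q.1.1
      rw [sub_add_cancel, mul_div_cancel₀ _ hk.ne']
    · show (1 / 2) ^ k * (q.1.2 / (1 / 2) ^ k) = q.1.2
      rw [mul_div_cancel₀ _ hk.ne']

/-- fibres: two points with the same image agree or both lie in the collapsed part -/
theorem f_fibre (k : ℕ) (p q : XX) (h : f k p = f k q) :
    p = q ∨ ((0 ≤ p.1.1 ∧ p.1.1 ≤ (1 / 2) ^ k) ∧ (0 ≤ q.1.1 ∧ q.1.1 ≤ (1 / 2) ^ k)) := by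
  have hk := half_pow_pos k
  have h0 : f0 k p = f0 k q := congrArg Subtype.val h
  have hval : ∀ p : XX, ((1 / 2) ^ k < p.1.1 ∧ f0 k p = p.1) ∨
      ((0 ≤ p.1.1 ∧ p.1.1 ≤ (1 / 2) ^ k) ∧ f0 k p = ((1 / 2) ^ k, 0)) ∨
      (p.1.1 < 0 ∧ f0 k p = ((1 / 2) ^ k * (p.1.1 + 1), (1 / 2) ^ k * p.1.2)) := by
    intro p
    rcases lt_trichotomy ((1 / 2 : ℝ) ^ k) p.1.1 with h1 | h1 | h1
    · left
      exact ⟨h1, by unfold f0; rw [if_pos h1.le]⟩
    · right; left
      refine ⟨⟨by rw [← h1]; exact hk.le, h1.ge⟩, ?_⟩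
      unfold f0
      rw [if_pos h1.le]
      have h2 := XX_pos p (by rw [← h1]; exact hk.le)
      rw [← h1, w_half_pow, abs_eq_zero] at h2
      exact Prod.ext h1.symm h2
    · by_cases h2 : 0 ≤ p.1.1
      · right; left
        exact ⟨⟨h2, h1.le⟩, by unfold f0; rw [if_neg (not_le.2 h1), if_pos h2]⟩
      · right; right
        exact ⟨not_le.1 h2, by unfold f0; rw [if_neg (not_le.2 h1), if_neg h2]⟩
  rcases hval p with ⟨a1, a2⟩ | ⟨a1, a2⟩ | ⟨a1, a2⟩ <;>
    rcases hval q with ⟨b1, b2⟩ | ⟨b1, b2⟩ | ⟨b1, b2⟩ <;> rw [a2, b2] at h0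
  · left; exact Subtype.ext h0
  · exfalso
    have : p.1.1 = (1 / 2) ^ k := congrArg Prod.fst h0
    linarith
  · exfalso
    have : p.1.1 = (1 / 2) ^ k * (q.1.1 + 1) := congrArg Prod.fst h0
    nlinarith
  · exfalso
    have : (1 / 2) ^ k = q.1.1 := congrArg Prod.fst h0
    linarith
  · right; exact ⟨a1, b1⟩
  · exfalso
    have : (1 / 2 : ℝ) ^ k = (1 / 2) ^ k * (q.1.1 + 1) := congrArg Prod.fst h0
    nlinarith
  · exfalso
    have : (1 / 2) ^ k * (p.1.1 + 1) = q.1.1 := congrArg Prod.fst h0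
    nlinarith
  · exfalso
    have : (1 / 2 : ℝ) ^ k * (p.1.1 + 1) = (1 / 2) ^ k := congrArg Prod.fst h0
    nlinarith
  · left
    have e1 : (1 / 2 : ℝ) ^ k * (p.1.1 + 1) = (1 / 2) ^ k * (q.1.1 + 1) := congrArg Prod.fst h0
    have e2 : (1 / 2 : ℝ) ^ k * p.1.2 = (1 / 2) ^ k * q.1.2 := congrArg Prod.snd h0
    have e3 := mul_left_cancel₀ hk.ne' e1
    have e4 := mul_left_cancel₀ hk.ne' e2
    apply Subtype.ext
    exact Prod.ext (by linarith) e4

theorem f_const (k : ℕ) (p : XX) (h1 : 0 ≤ p.1.1) (h2 : p.1.1 ≤ (1 / 2) ^ k) :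
    f0 k p = ((1 / 2) ^ k, 0) := by
  have hk := half_pow_pos k
  unfold f0
  rcases eq_or_lt_of_le h2 with h | h
  · rw [if_pos h.ge]
    have h3 := XX_pos p h1
    rw [h, w_half_pow, abs_eq_zero] at h3
    exact Prod.ext h h3
  · rw [if_neg (not_le.2 h), if_pos h1]

theorem subset_strip_connected (u v : ℝ) (huv : u ≤ v) (hu : w2 u = 0) (h1 : -1 ≤ u) (h2 : v ≤ 1) :
    IsPreconnected {p : XX | u ≤ p.1.1 ∧ p.1.1 ≤ v} := by
  have himg : Subtype.val '' {p : XX | u ≤ p.1.1 ∧ p.1.1 ≤ v} = Beads w2 (Icc u v) := by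
    ext q
    constructor
    · rintro ⟨p, hp, rfl⟩
      exact ⟨hp, p.2.2⟩
    · rintro ⟨hq1, hq2⟩
      exact ⟨⟨q, ⟨h1.trans hq1.1, hq1.2.trans h2⟩, hq2⟩, hq1, rfl⟩
  have := beads_preconnected w2 w2_cont w2_nonneg (Icc u v) isPreconnected_Icc u ⟨le_rfl, huv⟩ hu
  rw [← himg] at this
  exact Topology.IsInducing.subtypeVal.isPreconnected_image.1 this

theorem w2_zero : w2 0 = 0 := by simp [w2, w_one]

theorem f_mono (k : ℕ) : MonotoneMap (f k) := by
  intro y
  obtain ⟨p, hp⟩ := f_surj k y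
  have hk := half_pow_pos k
  refine ⟨⟨p, hp⟩, ?_⟩
  by_cases hc : 0 ≤ p.1.1 ∧ p.1.1 ≤ (1 / 2) ^ k
  · have hset : (f k) ⁻¹' {y} = {p : XX | 0 ≤ p.1.1 ∧ p.1.1 ≤ (1 / 2) ^ k} := by
      ext q
      constructor
      · intro hq
        have hq' : f k q = y := hq
        rcases f_fibre k q p (hq'.trans hp.symm) with h | h
        · rw [h]; exact hc
        · exact h.1
      · intro hq
        show f k q = y
        rw [← hp]
        apply Subtype.ext
        show f0 k q = f0 k p
        rw [f_const k q hq.1 hq.2, f_const k p hc.1 hc.2]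
    rw [hset]
    exact subset_strip_connected 0 _ hk.le w2_zero (by norm_num) (half_pow_le k)
  · have hset : (f k) ⁻¹' {y} = {p} := by
      ext q
      constructor
      · intro hq
        have hq' : f k q = y := hq
        rcases f_fibre k q p (hq'.trans hp.symm) with h | h
        · exact h
        · exact absurd h.2 hc
      · intro hq
        rw [hq]; exact hp
    rw [hset]
    exact isPreconnected_singleton

theorem f_diam (k : ℕ) (y : YY) : Metric.diam ((f k) ⁻¹' {y}) ≤ 2 * (1 / 2) ^ k := by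
  have hk := half_pow_pos k
  apply Metric.diam_le_of_forall_dist_le (by positivity)
  intro p hp q hq
  have hp' : f k p = y := hp
  have hq' : f k q = y := hq
  rcases f_fibre k p q (hp'.trans hq'.symm) with h | ⟨⟨a1, a2⟩, ⟨b1, b2⟩⟩
  · rw [h, dist_self]; positivity
  · rw [Subtype.dist_eq, Prod.dist_eq]
    apply max_le
    · rw [Real.dist_eq, abs_le]; constructor <;> linarith
    · have hp2 : |p.1.2| ≤ (1 / 2) ^ k := by
        rw [XX_pos p a1]
        exact (w_le _).trans (by rw [abs_of_nonneg a1]; exact a2)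
      have hq2 : |q.1.2| ≤ (1 / 2) ^ k := by
        rw [XX_pos q b1]
        exact (w_le _).trans (by rw [abs_of_nonneg b1]; exact b2)
      rw [Real.dist_eq]
      have := abs_sub p.1.2 q.1.2
      linarith

theorem f_close (k : ℕ) (p : XX) : dist (f k p) (r p) ≤ (1 / 2) ^ k := by
  have hk := half_pow_pos k
  rw [Subtype.dist_eq]
  show dist (f0 k p) (r0 p) ≤ (1 / 2) ^ k
  by_cases h1 : 0 ≤ p.1.1
  · have hr : r0 p = p.1 := by unfold r0; rw [if_pos h1]
    rw [hr]
    by_cases h2 : p.1.1 ≤ (1 / 2) ^ k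
    · rw [f_const k p h1 h2, Prod.dist_eq]
      apply max_le
      · rw [Real.dist_eq, abs_le]
        constructor
        · show -(1 / 2) ^ k ≤ (1 / 2) ^ k - p.1.1; linarith
        · show (1 / 2) ^ k - p.1.1 ≤ (1 / 2) ^ k; linarith
      · rw [Real.dist_eq]
        show |0 - p.1.2| ≤ (1 / 2) ^ k
        rw [zero_sub, abs_neg, XX_pos p h1]
        exact (w_le _).trans (by rw [abs_of_nonneg h1]; exact h2)
    · have : f0 k p = p.1 := by unfold f0; rw [if_pos (not_le.1 h2).le]
      rw [this, dist_self]; exact hk.le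
  · have hr : r0 p = (0, 0) := by unfold r0; rw [if_neg h1]
    have hf : f0 k p = ((1 / 2) ^ k * (p.1.1 + 1), (1 / 2) ^ k * p.1.2) := by
      unfold f0
      rw [if_neg, if_neg h1]
      intro h; exact h1 (hk.le.trans h)
    push Not at h1
    have hp1 : 0 ≤ p.1.1 + 1 := by linarith [p.2.1.1]
    rw [hr, hf, Prod.dist_eq]
    apply max_le
    · rw [Real.dist_eq]
      show |(1 / 2) ^ k * (p.1.1 + 1) - 0| ≤ (1 / 2) ^ k
      rw [sub_zero, abs_mul, abs_of_pos hk, abs_of_nonneg hp1]
      nlinarith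
    · rw [Real.dist_eq]
      show |(1 / 2) ^ k * p.1.2 - 0| ≤ (1 / 2) ^ k
      rw [sub_zero, abs_mul, abs_of_pos hk, XX_neg p h1.le]
      have := w_le (p.1.1 + 1)
      rw [abs_of_nonneg hp1] at this
      nlinarith

theorem r_refinable : MonotonelyRefinable r := by
  refine ⟨r_cont, r_surj, ?_⟩
  intro ε hε
  obtain ⟨k, hk⟩ := exists_pow_lt_of_lt_one (show (0 : ℝ) < ε / 2 by positivity)
    (show (1 / 2 : ℝ) < 1 by norm_num)
  refine ⟨f k, f_cont k, f_surj k, f_mono k, ?_, ?_⟩
  · intro y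
    exact lt_of_le_of_lt (f_diam k y) (by linarith)
  · intro x
    exact lt_of_le_of_lt (f_close k x) (by linarith)

/-! ### The two chains are not homeomorphic: cut points -/

/-- `p` is a cut point -/
def IsCut {X : Type} [TopologicalSpace X] (p : X) : Prop := ¬ IsPreconnected ({p}ᶜ : Set X)

theorem isCut_homeo {X Y : Type} [TopologicalSpace X] [TopologicalSpace Y] (e : X ≃ₜ Y) (p : X)
    (hp : IsCut p) : IsCut (e p) := by
  intro h
  apply hp
  have h2 := h.image e.symm e.symm.continuous.continuousOn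
  have h3 : e.symm '' ({e p}ᶜ : Set Y) = ({p}ᶜ : Set X) := by
    ext x
    constructor
    · rintro ⟨y, hy, rfl⟩ hx
      apply hy
      rw [mem_singleton_iff] at hx ⊢
      rw [← hx]; simp
    · intro hx
      exact ⟨e x, fun h => hx (e.injective h), by simp⟩
  rwa [h3] at h2

theorem XX_cut (t : ℝ) (ht : -1 < t) (ht1 : t < 1) (hw : w2 t = 0) (p : XX) (hp : p.1 = (t, 0)) :
    IsCut p := by
  intro h
  have hc1 : Continuous (fun q : XX => q.1.1) := continuous_fst.comp continuous_subtype_val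
  have hm1 : ((-1, 0) : ℝ × ℝ) ∈ Beads w2 (Icc (-1) 1) :=
    ⟨⟨le_rfl, by norm_num⟩, by simp [w2, w_zero]⟩
  have hm2 : ((1, 0) : ℝ × ℝ) ∈ Beads w2 (Icc (-1) 1) :=
    ⟨⟨by norm_num, le_rfl⟩, by
      have : ¬ ((1 : ℝ) ≤ 0) := by norm_num
      simp [w2, w_one, this]⟩
  have := h {q | q.1.1 < t} {q | t < q.1.1} (isOpen_lt hc1 continuous_const)
    (isOpen_lt continuous_const hc1) ?_ ⟨⟨(-1, 0), hm1⟩, ?_, ht⟩ ⟨⟨(1, 0), hm2⟩, ?_, ht1⟩
  · obtain ⟨q, _, hq1, hq2⟩ := this
    exact lt_asymm (show q.1.1 < t from hq1) (show t < q.1.1 from hq2)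
  · intro q hq
    rcases lt_trichotomy q.1.1 t with h1 | h1 | h1
    · left; exact h1
    · exfalso
      apply hq
      have h2 := q.2.2
      rw [h1, hw, abs_eq_zero] at h2
      apply Subtype.ext
      rw [hp]
      exact Prod.ext h1 h2
    · right; exact h1
  · intro h1
    have h2 := congrArg (fun z : XX => z.1.1) h1
    simp only [hp] at h2
    linarith
  · intro h1
    have h2 := congrArg (fun z : XX => z.1.1) h1
    simp only [hp] at h2
    linarith

theorem YY_preconnected_of_image (T : Set YY) (h : IsPreconnected (Subtype.val '' T)) :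
    IsPreconnected T := Topology.IsInducing.subtypeVal.isPreconnected_image.1 h

theorem YY_cut (q : YY) (hq : IsCut q) : ∃ m : ℕ, q.1 = ((1 / 2) ^ (m + 1), 0) := by
  by_cases hy : q.1.2 = 0
  · have hw := q.2.2
    rw [hy, abs_zero] at hw
    rcases eq_or_lt_of_le q.2.1.1 with h0 | h0
    · -- the limit point is not a cut point
      exfalso
      apply hq
      apply YY_preconnected_of_image
      have himg : Subtype.val '' ({q}ᶜ : Set YY) = Beads w (Ioc 0 1) := by
        ext z
        constructor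
        · rintro ⟨z', hz', rfl⟩
          refine ⟨⟨?_, z'.2.1.2⟩, z'.2.2⟩
          rcases eq_or_lt_of_le z'.2.1.1 with h1 | h1
          · exfalso
            apply hz'
            have h2 := z'.2.2
            rw [← h1, w_zero, abs_eq_zero] at h2
            apply Subtype.ext
            exact Prod.ext (by rw [← h1, ← h0]) (by rw [h2, hy])
          · exact h1
        · rintro ⟨hz1, hz2⟩
          refine ⟨⟨z, ⟨hz1.1.le, hz1.2⟩, hz2⟩, ?_, rfl⟩
          intro h1
          have h2 := congrArg (fun z : YY => z.1.1) h1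
          simp only at h2
          have := hz1.1
          linarith
      rw [himg]
      exact beads_preconnected w w_cont w_nonneg _ isPreconnected_Ioc 1 ⟨zero_lt_one, le_rfl⟩ w_one
    · rcases eq_or_lt_of_le q.2.1.2 with h1 | h1
      · -- the first point is not a cut point
        exfalso
        apply hq
        apply YY_preconnected_of_image
        have himg : Subtype.val '' ({q}ᶜ : Set YY) = Beads w (Ico 0 1) := by
          ext z
          constructor
          · rintro ⟨z', hz', rfl⟩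
            refine ⟨⟨z'.2.1.1, ?_⟩, z'.2.2⟩
            rcases eq_or_lt_of_le z'.2.1.2 with h2 | h2
            · exfalso
              apply hz'
              have h3 := z'.2.2
              rw [h2, w_one, abs_eq_zero] at h3
              apply Subtype.ext
              exact Prod.ext (by rw [h2, h1]) (by rw [h3, hy])
            · exact h2
          · rintro ⟨hz1, hz2⟩
            refine ⟨⟨z, ⟨hz1.1, hz1.2.le⟩, hz2⟩, ?_, rfl⟩
            intro h2
            have h3 := congrArg (fun z : YY => z.1.1) h2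
            simp only at h3
            have := hz1.2
            linarith
        rw [himg]
        exact beads_preconnected w w_cont w_nonneg _ isPreconnected_Ico 0 ⟨le_rfl, zero_lt_one⟩ w_zero
      · obtain ⟨m, hm⟩ := w_zeros q.1.1 h0 h1 hw.symm
        exact ⟨m, Prod.ext hm hy⟩
  · -- points off the axis are not cut points
    exfalso
    apply hq
    apply YY_preconnected_of_image
    set t0 := q.1.1 with ht0
    have hwt : |q.1.2| = w t0 := q.2.2
    -- sign
    obtain ⟨σ, hσ, hσy⟩ : ∃ σ : ℝ, (σ = 1 ∨ σ = -1) ∧ q.1.2 = σ * w t0 := by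
      rcases abs_cases q.1.2 with ⟨h, _⟩ | ⟨h, _⟩
      · exact ⟨1, Or.inl rfl, by rw [← hwt, h]; ring⟩
      · exact ⟨-1, Or.inr rfl, by rw [← hwt, h]; ring⟩
    have hwpos : 0 < w t0 := by rw [← hwt]; exact abs_pos.2 hy
    have himg : Subtype.val '' ({q}ᶜ : Set YY) =
        ((fun t => (t, -σ * w t)) '' Icc 0 1 ∪ (fun t => (t, σ * w t)) '' Ico 0 t0) ∪
          (fun t => (t, σ * w t)) '' Ioc t0 1 := by
      ext z
      constructor
      · rintro ⟨z', hz', rfl⟩
        have hz2 : z'.1.2 = σ * w z'.1.1 ∨ z'.1.2 = -σ * w z'.1.1 := by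
          have h3 : |z'.1.2| = w z'.1.1 := z'.2.2
          rcases hσ with h | h <;> rcases abs_cases z'.1.2 with ⟨h4, _⟩ | ⟨h4, _⟩
          · left; rw [h, ← h3, h4]; ring
          · right; rw [h, ← h3, h4]; ring
          · right; rw [h, ← h3, h4]; ring
          · left; rw [h, ← h3, h4]; ring
        rcases hz2 with h4 | h4
        · rcases lt_trichotomy z'.1.1 t0 with h5 | h5 | h5
          · left; right
            exact ⟨z'.1.1, ⟨z'.2.1.1, h5⟩, Prod.ext rfl h4.symm⟩
          · exfalso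
            apply hz'
            apply Subtype.ext
            exact Prod.ext h5 (by rw [h4, h5, hσy])
          · right
            exact ⟨z'.1.1, ⟨h5, z'.2.1.2⟩, Prod.ext rfl h4.symm⟩
        · left; left
          exact ⟨z'.1.1, z'.2.1, Prod.ext rfl h4.symm⟩
      · have habs : ∀ t, |σ * w t| = w t := by
          intro t
          rcases hσ with h | h
          · rw [h, one_mul, abs_of_nonneg (w_nonneg t)]
          · rw [h, neg_one_mul, abs_neg, abs_of_nonneg (w_nonneg t)]
        have habs' : ∀ t, |-σ * w t| = w t := by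
          intro t
          rw [neg_mul, abs_neg]; exact habs t
        rintro ((⟨t, ht, rfl⟩ | ⟨t, ht, rfl⟩) | ⟨t, ht, rfl⟩)
        · refine ⟨⟨(t, -σ * w t), ht, habs' t⟩, ?_, rfl⟩
          intro h2
          have h3 : t = t0 := congrArg (fun z : YY => z.1.1) h2
          have h4 : -σ * w t = q.1.2 := congrArg (fun z : YY => z.1.2) h2
          rw [h3, hσy] at h4
          rcases hσ with h | h <;> rw [h] at h4 <;> linarith
        · refine ⟨⟨(t, σ * w t), ⟨ht.1, ht.2.le.trans q.2.1.2⟩, habs t⟩, ?_, rfl⟩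
          intro h2
          have h3 : t = t0 := congrArg (fun z : YY => z.1.1) h2
          have := ht.2
          linarith
        · refine ⟨⟨(t, σ * w t), ⟨q.2.1.1.trans ht.1.le, ht.2⟩, habs t⟩, ?_, rfl⟩
          intro h2
          have h3 : t = t0 := congrArg (fun z : YY => z.1.1) h2
          have := ht.1
          linarith
    rw [himg]
    have ht0pos : 0 < t0 := by
      rcases eq_or_lt_of_le q.2.1.1 with h | h
      · exfalso
        rw [← ht0] at h
        rw [← h, w_zero] at hwpos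
        exact lt_irrefl _ hwpos
      · exact h
    have ht0lt : t0 < 1 := by
      rcases eq_or_lt_of_le q.2.1.2 with h | h
      · exfalso
        rw [← ht0] at h
        rw [h, w_one] at hwpos
        exact lt_irrefl _ hwpos
      · exact h
    have hcw := w_cont
    have c1 : Continuous (fun t => (t, -σ * w t)) := by fun_prop
    have c2 : Continuous (fun t => (t, σ * w t)) := by fun_prop
    apply IsPreconnected.union (1, 0)
    · left; exact ⟨1, ⟨zero_le_one, le_rfl⟩, Prod.ext rfl (by show -σ * w 1 = 0; rw [w_one, mul_zero])⟩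
    · exact ⟨1, ⟨ht0lt, le_rfl⟩, Prod.ext rfl (by show σ * w 1 = 0; rw [w_one, mul_zero])⟩
    · apply IsPreconnected.union (0, 0)
      · exact ⟨0, ⟨le_rfl, zero_le_one⟩, Prod.ext rfl (by show -σ * w 0 = 0; rw [w_zero, mul_zero])⟩
      · exact ⟨0, ⟨le_rfl, ht0pos⟩, Prod.ext rfl (by show σ * w 0 = 0; rw [w_zero, mul_zero])⟩
      · exact isPreconnected_Icc.image _ c1.continuousOn
      · exact isPreconnected_Ico.image _ c2.continuousOn
    · exact isPreconnected_Ioc.image _ c2.continuousOn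

theorem pt_mem (t : ℝ) (ht : -1 ≤ t) (ht1 : t ≤ 1) (hw : w2 t = 0) :
    ((t, 0) : ℝ × ℝ) ∈ Beads w2 (Icc (-1) 1) := ⟨⟨ht, ht1⟩, by rw [hw]; simp⟩

theorem w2_half_pow (k : ℕ) : w2 ((1 / 2) ^ k) = 0 := by
  unfold w2
  rw [if_neg (not_le.2 (half_pow_pos k)), w_half_pow]

theorem not_homeo : IsEmpty (XX ≃ₜ YY) := by
  constructor
  intro e
  -- cut points c_n of XX converging to the cut point x0
  let x0 : XX := ⟨(0, 0), pt_mem 0 (by norm_num) (by norm_num) w2_zero⟩
  let c : ℕ → XX := fun n => ⟨((1 / 2) ^ (n + 1), 0),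
    pt_mem _ (by linarith [half_pow_pos (n + 1)]) (half_pow_le _) (w2_half_pow _)⟩
  have hlt : ∀ n : ℕ, ((1 : ℝ) / 2) ^ (n + 1) < 1 := fun n =>
    pow_lt_one₀ (by norm_num) (by norm_num) (Nat.succ_ne_zero n)
  have hx0 : IsCut x0 := XX_cut 0 (by norm_num) (by norm_num) w2_zero x0 rfl
  have hcn : ∀ n, IsCut (c n) := fun n =>
    XX_cut _ (by linarith [half_pow_pos (n + 1)]) (hlt n) (w2_half_pow _) (c n) rfl
  have hlim : Tendsto c atTop (𝓝 x0) := by
    rw [tendsto_subtype_rng]
    have h1 : Tendsto (fun n : ℕ => ((1 : ℝ) / 2) ^ (n + 1)) atTop (𝓝 0) :=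
      (tendsto_pow_atTop_nhds_zero_of_lt_one (by norm_num) (by norm_num)).comp (tendsto_add_atTop_nat 1)
    exact h1.prodMk_nhds tendsto_const_nhds
  obtain ⟨m, hm⟩ := YY_cut _ (isCut_homeo e x0 hx0)
  have hlim2 : Tendsto (fun n => (e (c n)).1.1) atTop (𝓝 ((e x0).1.1)) := by
    have h1 : Continuous (fun z : YY => z.1.1) := continuous_fst.comp continuous_subtype_val
    exact ((h1.comp e.continuous).tendsto x0).comp hlim
  have hm1 : (e x0).1.1 = (1 / 2) ^ (m + 1) := by rw [hm]
  rw [hm1] at hlim2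
  have hpos := half_pow_pos (m + 1)
  have hev : ∀ᶠ n in atTop, (e (c n)).1.1 ∈ Ioo ((1 / 2 : ℝ) ^ (m + 2)) ((1 / 2) ^ m) := by
    apply hlim2
    apply Ioo_mem_nhds
    · rw [pow_succ (1 / 2 : ℝ) (m + 1)]; linarith
    · rw [pow_succ (1 / 2 : ℝ) m]
      have := half_pow_pos m
      linarith
  obtain ⟨n, hn⟩ := hev.exists
  obtain ⟨j, hj⟩ := YY_cut _ (isCut_homeo e (c n) (hcn n))
  have hj1 : (e (c n)).1.1 = (1 / 2) ^ (j + 1) := by rw [hj]
  rw [hj1] at hn
  have h1 : j + 1 < m + 2 := by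
    by_contra hc
    push Not at hc
    have := pow_le_pow_of_le_one (show (0 : ℝ) ≤ 1 / 2 by norm_num) (by norm_num) hc
    linarith [hn.1]
  have h2 : m < j + 1 := by
    by_contra hc
    push Not at hc
    have := pow_le_pow_of_le_one (show (0 : ℝ) ≤ 1 / 2 by norm_num) (by norm_num) hc
    linarith [hn.2]
  have hjm : j = m := by omega
  have heq : e (c n) = e x0 := by
    apply Subtype.ext
    rw [hj, hm, hjm]
  have h3 := e.injective heq
  have h4 : ((1 : ℝ) / 2) ^ (n + 1) = 0 := congrArg (fun z : XX => z.1.1) h3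
  have := half_pow_pos (n + 1)
  linarith

theorem XX_regular : RegularCurveOfFiniteOrder XX := by
  refine ⟨?_, ?_, ?_, ?_⟩
  · exact isCompact_iff_compactSpace.1 (beads_compact w2 w2_cont w2_nonneg _ _)
  · have h1 : IsConnected (Beads w2 (Icc (-1) 1)) := by
      refine ⟨⟨(0, 0), pt_mem 0 (by norm_num) (by norm_num) w2_zero⟩, ?_⟩
      exact beads_preconnected w2 w2_cont w2_nonneg _ isPreconnected_Icc 0
        ⟨by norm_num, by norm_num⟩ w2_zero
    exact isConnected_iff_connectedSpace.1 h1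
  · refine ⟨⟨(0, 0), pt_mem 0 (by norm_num) (by norm_num) w2_zero⟩,
      ⟨((1 / 2) ^ 1, 0), pt_mem _ (by norm_num) (by norm_num) (w2_half_pow 1)⟩, ?_⟩
    intro h
    have h2 : (0 : ℝ) = (1 / 2) ^ 1 := congrArg (fun z : XX => z.1.1) h
    norm_num at h2
  · intro p
    exact ⟨4, beads_order w2 w2_cont _ p⟩

theorem YY_regular : RegularCurveOfFiniteOrder YY := by
  have hm0 : ((0, 0) : ℝ × ℝ) ∈ Beads w (Icc 0 1) := ⟨⟨le_rfl, zero_le_one⟩, by simp [w_zero]⟩
  have hm1 : ((1, 0) : ℝ × ℝ) ∈ Beads w (Icc 0 1) := ⟨⟨zero_le_one, le_rfl⟩, by simp [w_one]⟩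
  refine ⟨?_, ?_, ?_, ?_⟩
  · exact isCompact_iff_compactSpace.1 (beads_compact w w_cont w_nonneg _ _)
  · have h1 : IsConnected (Beads w (Icc 0 1)) := by
      refine ⟨⟨(0, 0), hm0⟩, ?_⟩
      exact beads_preconnected w w_cont w_nonneg _ isPreconnected_Icc 0 ⟨le_rfl, zero_le_one⟩ w_zero
    exact isConnected_iff_connectedSpace.1 h1
  · refine ⟨⟨(0, 0), hm0⟩, ⟨(1, 0), hm1⟩, ?_⟩
    intro h
    have h2 : (0 : ℝ) = 1 := congrArg (fun z : YY => z.1.1) h
    norm_num at h2
  · intro p
    exact ⟨4, beads_order w w_cont _ p⟩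

/-- There are two regular curves of finite order which are not homeomorphic, and a monotonely
refinable map of one onto the other. -/
theorem result : ∃ (X Y : Type) (_ : MetricSpace X) (_ : MetricSpace Y) (r : X → Y),
    RegularCurveOfFiniteOrder X ∧ RegularCurveOfFiniteOrder Y ∧ IsEmpty (X ≃ₜ Y) ∧
      MonotonelyRefinable r :=
  ⟨XX, YY, inferInstance, inferInstance, r, XX_regular, YY_regular, not_homeo, r_refinable⟩

end Pool.Agent.Results.MP_fdfd6d_gt.BeadChains
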